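import Pool.Agent.W424.KI.Stm

set_option autoImplicit false

namespace Pool.Agent.W32.KI.Aux

lemma cel_abs {ι : Type*} (u : ℕ → ℝ) (P : ℕ → ι → ℝ) (N : ℕ) (hN : 16 ≤ N) (C c δ : ℝ)
    (hC : 0 < C) (hc : 0 < c) (Cs : Finset ι) (r0 : ℕ)
    (hδ : δ = c / (2 * C * (4 : ℝ) ^ (2 / 3 : ℝ)))
    (h1 : ∀ r : ℕ, r0 ≤ r → u (N * r) ≤ δ * u (N * r / 2) + ∑ i ∈ Cs, P r i)
    (h2 : ∀ R : ℕ, 1 ≤ R → u R ≤ C * (R : ℝ) ^ (-(2 / 3 : ℝ)))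
    (h3 : ∀ R : ℕ, 1 ≤ R → c * (R : ℝ) ^ (-(2 / 3 : ℝ)) ≤ u R) :
    ∃ c' : ℝ, 0 < c' ∧ ∃ r1 : ℕ, ∀ r : ℕ, r1 ≤ r → ∃ i ∈ Cs,
      c' * (r : ℝ) ^ (-(2 / 3 : ℝ)) ≤ P r i := by
  have h4 : (0 : ℝ) < (4 : ℝ) ^ (2 / 3 : ℝ) := Real.rpow_pos_of_pos (by norm_num) _
  have hδ0 : 0 < δ := by rw [hδ]; positivity
  have hNr : (0 : ℝ) < (N : ℝ) := by
    have : 0 < N := by omega
    exact_mod_cast this
  have hN3 : (0 : ℝ) < (N : ℝ) ^ (-(2 / 3 : ℝ)) := Real.rpow_pos_of_pos hNr _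
  refine ⟨c / 2 * (N : ℝ) ^ (-(2 / 3 : ℝ)) / ((Cs.card : ℝ) + 1), by positivity, max r0 1, ?_⟩
  intro r hr
  have hr0 : r0 ≤ r := le_trans (le_max_left _ _) hr
  have hr1 : 1 ≤ r := le_trans (le_max_right _ _) hr
  have hrr : (0 : ℝ) < (r : ℝ) := by exact_mod_cast hr1
  have hX : (0 : ℝ) < (r : ℝ) ^ (-(2 / 3 : ℝ)) := Real.rpow_pos_of_pos hrr _
  have hNr1 : 16 ≤ N * r := by nlinarith
  have hmul : ((N * r : ℕ) : ℝ) ^ (-(2 / 3 : ℝ)) = (N : ℝ) ^ (-(2 / 3 : ℝ)) * (r : ℝ) ^ (-(2 / 3 : ℝ)) := by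
    rw [Nat.cast_mul, Real.mul_rpow hNr.le hrr.le]
  have hhalf : u (N * r / 2) ≤ C * ((4 : ℝ) ^ (2 / 3 : ℝ) * ((N * r : ℕ) : ℝ) ^ (-(2 / 3 : ℝ))) := by
    have hh : 1 ≤ N * r / 2 := by omega
    refine le_trans (h2 _ hh) ?_
    refine mul_le_mul_of_nonneg_left ?_ hC.le
    have hq : ((N * r : ℕ) : ℝ) / 4 ≤ ((N * r / 2 : ℕ) : ℝ) := by
      have h5 : N * r ≤ 4 * (N * r / 2) := by omega
      have h6 : ((N * r : ℕ) : ℝ) ≤ 4 * ((N * r / 2 : ℕ) : ℝ) := by exact_mod_cast h5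
      linarith
    have hp : (0 : ℝ) < ((N * r : ℕ) : ℝ) / 4 := by
      have : (0 : ℝ) < ((N * r : ℕ) : ℝ) := by
        have : 0 < N * r := by omega
        exact_mod_cast this
      linarith
    refine le_trans (Real.rpow_le_rpow_of_nonpos hp hq (by norm_num)) ?_
    rw [Real.div_rpow (by positivity) (by norm_num), Real.rpow_neg (by norm_num : (0 : ℝ) ≤ 4),
      div_inv_eq_mul]
    exact le_of_eq (by ring)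
  have hA := h1 r hr0
  have hB := h3 (N * r) (by omega)
  by_contra hcon
  push Not at hcon
  have hsum : ∑ i ∈ Cs, P r i ≤ ∑ i ∈ Cs, (c / 2 * (N : ℝ) ^ (-(2 / 3 : ℝ)) / ((Cs.card : ℝ) + 1) *
      (r : ℝ) ^ (-(2 / 3 : ℝ))) := Finset.sum_le_sum fun i hi => (hcon i hi).le
  rw [Finset.sum_const, nsmul_eq_mul] at hsum
  have hd : δ * u (N * r / 2) ≤ c / 2 * ((N * r : ℕ) : ℝ) ^ (-(2 / 3 : ℝ)) := by
    refine le_trans (mul_le_mul_of_nonneg_left hhalf hδ0.le) ?_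
    rw [hδ]
    refine le_of_eq ?_
    field_simp
  have hkey : (Cs.card : ℝ) * (c / 2 * (N : ℝ) ^ (-(2 / 3 : ℝ)) / ((Cs.card : ℝ) + 1) *
      (r : ℝ) ^ (-(2 / 3 : ℝ))) < c / 2 * ((N * r : ℕ) : ℝ) ^ (-(2 / 3 : ℝ)) := by
    rw [hmul]
    have hE : (0 : ℝ) < c / 2 * ((N : ℝ) ^ (-(2 / 3 : ℝ)) * (r : ℝ) ^ (-(2 / 3 : ℝ))) := by positivity
    have hcard : (0 : ℝ) ≤ (Cs.card : ℝ) := Nat.cast_nonneg _
    have heq : (Cs.card : ℝ) * (c / 2 * (N : ℝ) ^ (-(2 / 3 : ℝ)) / ((Cs.card : ℝ) + 1) *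
      (r : ℝ) ^ (-(2 / 3 : ℝ))) = ((Cs.card : ℝ) / ((Cs.card : ℝ) + 1)) *
        (c / 2 * ((N : ℝ) ^ (-(2 / 3 : ℝ)) * (r : ℝ) ^ (-(2 / 3 : ℝ)))) := by
      field_simp
    rw [heq]
    have hl : (Cs.card : ℝ) / ((Cs.card : ℝ) + 1) < 1 := by
      rw [div_lt_one (by positivity)]
      linarith
    calc ((Cs.card : ℝ) / ((Cs.card : ℝ) + 1)) *
        (c / 2 * ((N : ℝ) ^ (-(2 / 3 : ℝ)) * (r : ℝ) ^ (-(2 / 3 : ℝ))))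
        < 1 * (c / 2 * ((N : ℝ) ^ (-(2 / 3 : ℝ)) * (r : ℝ) ^ (-(2 / 3 : ℝ)))) :=
          mul_lt_mul_of_pos_right hl hE
      _ = _ := one_mul _
  linarith

end Pool.Agent.W32.KI.Aux

namespace Pool.Agent.W32.KI
open H974 H906.Cyl
open Pool.Agent.H160R2.MU (Cel csq cpos EP inSq)
open Pool.Agent.W801.OU
open Pool.Agent.W808.KZ (AdmZ LandZ)
open Pool.Agent.W424.KI

/-- one good inner cell -/
theorem t_CEL : Pool.Agent.W808.KZ.S_LAND → Pool.Agent.W801.OU.S_UR3 → S_LB → S_CEL := by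
  rintro hL ⟨C, hC, h2⟩ ⟨c, hc, h3⟩
  obtain ⟨N, hN, Cs, hCs, r0, h1⟩ := hL (c / (2 * C * (4 : ℝ) ^ (2 / 3 : ℝ)))
    (by
      have h4 : (0 : ℝ) < (4 : ℝ) ^ (2 / 3 : ℝ) := Real.rpow_pos_of_pos (by norm_num) _
      positivity)
  obtain ⟨c', hc', r1, h⟩ := Aux.cel_abs uR
    (fun r Ci => Pr (fun _ => (1 / 2 : ℝ)) (boxE (N * r)) (fun F => LandZ N r Ci (↑F : Set Edg)))
    N hN C c _ hC hc Cs r0 rfl h1 h2 h3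
  exact ⟨N, Cs, c', r1, hN, hCs, hc', h⟩

end Pool.Agent.W32.KI
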